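import Mathlib

/-! Acts over monoids: tensor products, flat acts, tensor-pure morphisms. Right acts of the monoid
`S` are `MulAction Sᵐᵒᵖ A`, with `a <• s = MulOpposite.op s • a`. -/

set_option autoImplicit false
set_option linter.unusedVariables false

universe u v w

open scoped RightActions

namespace Pool.Agent.R769.FC

variable (S : Type u) [Monoid S]

/-- The tensor product of a right act and a left act: the quotient of `A × X` by the equivalence
relation generated by `(a s, x) ~ (a, s x)`. -/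
def Tensor (A : Type v) [MulAction Sᵐᵒᵖ A] (X : Type w) [MulAction S X] : Type (max v w) :=
  Quot fun p q : A × X => ∃ (a : A) (s : S) (x : X), p = (a <• s, x) ∧ q = (a, s • x)

variable {S}

/-- The element `a ⊗ x`. -/
def tmk {A : Type v} [MulAction Sᵐᵒᵖ A] {X : Type w} [MulAction S X] (a : A) (x : X) :
    Tensor S A X := Quot.mk _ (a, x)

/-- The map `A ⊗ f`. -/
def Tensor.map (A : Type v) [MulAction Sᵐᵒᵖ A] {X Y : Type w} [MulAction S X] [MulAction S Y]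
    (f : X →[S] Y) : Tensor S A X → Tensor S A Y :=
  Quot.map (fun p => (p.1, f p.2)) (by
    rintro p q ⟨a, s, x, rfl, rfl⟩
    exact ⟨a, s, f x, rfl, by simp⟩)

/-- The map `u ⊗ Y`. -/
def Tensor.mapL {A : Type v} [MulAction Sᵐᵒᵖ A] {B : Type v} [MulAction Sᵐᵒᵖ B]
    (f : A →[Sᵐᵒᵖ] B) (Y : Type w) [MulAction S Y] : Tensor S A Y → Tensor S B Y :=
  Quot.map (fun p => (f p.1, p.2)) (by
    rintro p q ⟨a, s, x, rfl, rfl⟩
    exact ⟨f a, s, x, by simp, rfl⟩)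

variable (S)

/-- A right act is flat if tensoring with it preserves injectivity. -/
def IsFlat (A : Type v) [MulAction Sᵐᵒᵖ A] : Prop :=
  ∀ (X Y : Type u) [MulAction S X] [MulAction S Y] (f : X →[S] Y),
    Function.Injective f → Function.Injective (Tensor.map A f)

variable {S}

theorem tmk_smul {A : Type v} [MulAction Sᵐᵒᵖ A] {X : Type w} [MulAction S X] (a : A) (s : S)
    (x : X) : tmk (S := S) (a <• s) x = tmk a (s • x) :=
  Quot.sound ⟨a, s, x, rfl, rfl⟩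

theorem flat_iff (A : Type v) [MulAction Sᵐᵒᵖ A] :
    IsFlat S A ↔ ∀ (X Y : Type u) [MulAction S X] [MulAction S Y] (f : X →[S] Y),
      Function.Injective f → ∀ (a a' : A) (x x' : X),
        tmk (S := S) a (f x) = tmk a' (f x') → tmk (S := S) a x = tmk a' x' := by
  constructor
  · intro h X Y _ _ f hf a a' x x' he
    exact h X Y f hf he
  · intro h X Y _ _ f hf
    rintro ⟨a, x⟩ ⟨a', x'⟩ he
    exact h X Y f hf a a' x x' he

theorem tmk_map {A B : Type v} [MulAction Sᵐᵒᵖ A] [MulAction Sᵐᵒᵖ B] (f : A →[Sᵐᵒᵖ] B)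
    {Y : Type w} [MulAction S Y] {a a' : A} {y y' : Y} (h : tmk (S := S) a y = tmk a' y') :
    tmk (S := S) (f a) y = tmk (f a') y' :=
  congrArg (Tensor.mapL f Y) h

/-- the same, across universes -/
theorem tmk_map' {A : Type v} {B : Type w} [MulAction Sᵐᵒᵖ A] [MulAction Sᵐᵒᵖ B]
    (f : A → B) (hf : ∀ (s : S) a, f (a <• s) = f a <• s)
    {Y : Type u} [MulAction S Y] {a a' : A} {y y' : Y} (h : tmk (S := S) a y = tmk a' y') :
    tmk (S := S) (f a) y = tmk (f a') y' := by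
  let F : Tensor S A Y → Tensor S B Y := Quot.map (fun p => (f p.1, p.2)) (by
    rintro p q ⟨a, s, x, rfl, rfl⟩
    exact ⟨f a, s, x, by simp [hf], rfl⟩)
  exact congrArg F h

/-- retracts of flat acts are flat -/
theorem flat_retract {A : Type v} {B : Type w} [MulAction Sᵐᵒᵖ A] [MulAction Sᵐᵒᵖ B]
    (j : B → A) (hj : ∀ (s : S) b, j (b <• s) = j b <• s) (r : A → B)
    (hr : ∀ (s : S) a, r (a <• s) = r a <• s) (h : ∀ b, r (j b) = b) (hA : IsFlat S A) :
    IsFlat S B := by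
  rw [flat_iff] at hA ⊢
  intro X Y _ _ f hf b b' x x' he
  have h1 := hA X Y f hf _ _ _ _ (tmk_map' j hj he)
  have h2 := tmk_map' r hr h1
  rwa [h, h] at h2

/-! ### Tossings -/

/-- the side of the act in a tossing -/
def APath {A : Type v} [MulAction Sᵐᵒᵖ A] : List (S × S) → A → A → Prop
  | [], p, q => p = q
  | (s, t) :: σ, p, q => ∃ z : A, z <• s = p ∧ APath σ (z <• t) q

/-- the other side of a tossing -/
def YPath {Y : Type w} [MulAction S Y] : List (S × S) → Y → Y → Prop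
  | [], y, y' => y = y'
  | (s, t) :: σ, y, y' => ∃ y1 : Y, s • y = t • y1 ∧ YPath σ y1 y'

theorem APath.append {A : Type v} [MulAction Sᵐᵒᵖ A] (σ τ : List (S × S)) :
    ∀ p q r : A, APath σ p q → APath τ q r → APath (σ ++ τ) p r := by
  induction σ with
  | nil => rintro p q r rfl h; exact h
  | cons a σ ih =>
    obtain ⟨s, t⟩ := a
    rintro p q r ⟨z, hz, h⟩ h'
    exact ⟨z, hz, ih _ _ _ h h'⟩

theorem YPath.append {Y : Type w} [MulAction S Y] (σ τ : List (S × S)) :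
    ∀ p q r : Y, YPath σ p q → YPath τ q r → YPath (σ ++ τ) p r := by
  induction σ with
  | nil => rintro p q r rfl h; exact h
  | cons a σ ih =>
    obtain ⟨s, t⟩ := a
    rintro p q r ⟨z, hz, h⟩ h'
    exact ⟨z, hz, ih _ _ _ h h'⟩

theorem toss_symm {A : Type v} [MulAction Sᵐᵒᵖ A] {Y : Type w} [MulAction S Y]
    (σ : List (S × S)) : ∀ (p q : A) (y z : Y), APath σ p q → YPath σ y z →
      ∃ τ : List (S × S), APath τ q p ∧ YPath τ z y := by
  induction σ with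
  | nil => rintro p q y z rfl rfl; exact ⟨[], rfl, rfl⟩
  | cons a σ ih =>
    obtain ⟨s, t⟩ := a
    rintro p q y z ⟨w, hw, h⟩ ⟨y1, hy, h'⟩
    obtain ⟨τ, h1, h2⟩ := ih _ _ _ _ h h'
    refine ⟨τ ++ [(t, s)], APath.append _ _ _ _ _ h1 ⟨w, rfl, hw⟩,
      YPath.append _ _ _ _ _ h2 ⟨y, hy.symm, rfl⟩⟩

theorem toss_of_eq {A : Type v} [MulAction Sᵐᵒᵖ A] {Y : Type w} [MulAction S Y] {p q : A}
    {y z : Y} (h : tmk (S := S) p y = tmk q z) : ∃ σ, APath (S := S) σ p q ∧ YPath σ y z := by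
  have h1 := Quot.eqvGen_exact h
  have key : ∀ a b : A × Y, Relation.EqvGen (fun p q : A × Y =>
      ∃ (a : A) (s : S) (x : Y), p = (a <• s, x) ∧ q = (a, s • x)) a b →
      ∃ σ, APath (S := S) σ a.1 b.1 ∧ YPath σ a.2 b.2 := by
    intro a b h
    induction h with
    | rel a b h =>
      obtain ⟨c, s, x, rfl, rfl⟩ := h
      exact ⟨[(s, 1)], ⟨c, rfl, by simp [APath]⟩, ⟨s • x, by simp, rfl⟩⟩
    | refl a => exact ⟨[], rfl, rfl⟩
    | symm a b _ ih =>
      obtain ⟨σ, h1, h2⟩ := ih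
      exact toss_symm σ _ _ _ _ h1 h2
    | trans a b c _ _ ih1 ih2 =>
      obtain ⟨σ, h1, h2⟩ := ih1
      obtain ⟨τ, h3, h4⟩ := ih2
      exact ⟨σ ++ τ, APath.append _ _ _ _ _ h1 h3, YPath.append _ _ _ _ _ h2 h4⟩
  exact key _ _ h1

theorem eq_of_toss {A : Type v} [MulAction Sᵐᵒᵖ A] {Y : Type w} [MulAction S Y]
    (σ : List (S × S)) : ∀ (p q : A) (y z : Y), APath σ p q → YPath σ y z →
      tmk (S := S) p y = tmk q z := by
  induction σ with
  | nil => rintro p q y z rfl rfl; rfl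
  | cons a σ ih =>
    obtain ⟨s, t⟩ := a
    rintro p q y z ⟨w, rfl, h⟩ ⟨y1, hy, h'⟩
    rw [tmk_smul, hy, ← tmk_smul]
    exact ih _ _ _ _ h h'

/-! ### Pure morphisms -/

/-- Tensor-pure morphisms. -/
structure Pure {R P : Type u} [MulAction Sᵐᵒᵖ R] [MulAction Sᵐᵒᵖ P] (f : R →[Sᵐᵒᵖ] P) : Prop where
  t1 : ∀ (Y : Type u) [MulAction S Y] (r r' : R) (y y' : Y),
    tmk (S := S) (f r) y = tmk (f r') y' → tmk (S := S) r y = tmk r' y'
  t2 : ∀ (Y : Type u) [MulAction S Y] (r : R) (p : P) (y y' : Y),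
    tmk (S := S) (f r) y = tmk p y' → ∃ r' : R, tmk (S := S) r y = tmk r' y'

theorem eq_of_tmk_one {A : Type v} [MulAction Sᵐᵒᵖ A] {a b : A}
    (h : tmk (S := S) a (1 : S) = tmk b (1 : S)) : a = b := by
  let F : Tensor S A S → A := Quot.lift (fun p => p.1 <• p.2) (by
    rintro p q ⟨a, s, x, rfl, rfl⟩
    simp [mul_smul])
  have := congrArg F h
  simpa [F, tmk] using this

theorem Pure.inj {R P : Type u} [MulAction Sᵐᵒᵖ R] [MulAction Sᵐᵒᵖ P] {f : R →[Sᵐᵒᵖ] P}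
    (h : Pure f) : Function.Injective f := by
  intro r r' e
  apply eq_of_tmk_one (S := S)
  apply h.t1
  rw [e]

theorem Pure.id {R : Type u} [MulAction Sᵐᵒᵖ R] : Pure (MulActionHom.id Sᵐᵒᵖ : R →[Sᵐᵒᵖ] R) where
  t1 := fun Y _ r r' y y' h => h
  t2 := fun Y _ r p y y' h => ⟨p, h⟩

theorem Pure.comp {R P Q : Type u} [MulAction Sᵐᵒᵖ R] [MulAction Sᵐᵒᵖ P] [MulAction Sᵐᵒᵖ Q]
    {f : R →[Sᵐᵒᵖ] P} {g : P →[Sᵐᵒᵖ] Q} (hf : Pure f) (hg : Pure g) : Pure (g.comp f) where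
  t1 := fun Y _ r r' y y' h => hf.t1 Y _ _ _ _ (hg.t1 Y _ _ _ _ h)
  t2 := fun Y _ r q y y' h => by
    obtain ⟨p, hp⟩ := hg.t2 Y _ _ _ _ h
    exact hf.t2 Y _ _ _ _ hp

/-- a pure subact of a flat act is flat -/
theorem Pure.flat {R P : Type u} [MulAction Sᵐᵒᵖ R] [MulAction Sᵐᵒᵖ P] {f : R →[Sᵐᵒᵖ] P}
    (hf : Pure f) (hP : IsFlat S P) : IsFlat S R := by
  rw [flat_iff] at hP ⊢
  intro X Y _ _ g hg a a' x x' he
  exact hf.t1 X _ _ _ _ (hP X Y g hg _ _ _ _ (tmk_map f he))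

/-- The pull-back property. -/
theorem Pure.pull {R P : Type u} [MulAction Sᵐᵒᵖ R] [MulAction Sᵐᵒᵖ P] {f : R →[Sᵐᵒᵖ] P}
    (hf : Pure f) (hP : IsFlat S P) {X Y : Type u} [MulAction S X] [MulAction S Y] (g : X →[S] Y)
    (hg : Function.Injective g) {r : R} {p : P} {y : Y} {x : X}
    (h : tmk (S := S) (f r) y = tmk p (g x)) :
    ∃ r' : R, tmk (S := S) r y = tmk r' (g x) ∧ tmk (S := S) (f r') x = tmk p x := by
  obtain ⟨r', hr⟩ := hf.t2 Y _ _ _ _ h
  refine ⟨r', hr, ?_⟩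
  rw [flat_iff] at hP
  exact hP X Y g hg _ _ _ _ ((tmk_map f hr).symm.trans h)

end Pool.Agent.R769.FC
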