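import Mathlib

/-! A transfinite construction in a monoid in which coherent systems have cocones. -/

set_option autoImplicit false
set_option linter.unusedVariables false

universe u v

namespace Pool.Agent.R769.FC

/-- Coherent well-ordered systems in the monoid have cocones. -/
def HasCocones (E : Type v) [Monoid E] (ι : Type u) [LinearOrder ι] : Prop :=
  ∀ (I : Set ι) (h : ι → ι → E), (∀ i ∈ I, ∀ j ∈ I, ∀ k ∈ I, i < j → j < k →
    h j k * h i j = h i k) → ∃ c : ι → E, ∀ i ∈ I, ∀ j ∈ I, i < j → c j * h i j = c i

variable {E : Type v} [Monoid E] {ι : Type u} [LinearOrder ι] [WellFoundedLT ι]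

open Classical in
/-- the rows of the system: `row i j` is the map from `j` to `i` (for `j < i`) -/
noncomputable def row (φ : E → E) (b : ι) : ι → ι → E :=
  WellFounded.fix (wellFounded_lt (α := ι)) (C := fun _ => ι → E) fun i prev =>
    if H : ∃ c : ι → E, ∀ (j k : ι) (hk : k < i), j < k → c k * prev k hk j = c j then
      fun j => φ (H.choose b) * H.choose j
    else fun _ => 1

theorem row_eq (φ : E → E) (b : ι) (i : ι)
    (H : ∃ c : ι → E, ∀ (j k : ι), k < i → j < k → c k * row φ b k j = c j) :
    ∃ c : ι → E, (∀ (j k : ι), k < i → j < k → c k * row φ b k j = c j) ∧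
      ∀ j, row φ b i j = φ (c b) * c j := by
  classical
  have e : row φ b i = if H : ∃ c : ι → E, ∀ (j k : ι) (hk : k < i), j < k →
      c k * row φ b k j = c j then fun j => φ (H.choose b) * H.choose j else fun _ => 1 := by
    rw [row, WellFounded.fix_eq]
  have H' : ∃ c : ι → E, ∀ (j k : ι) (hk : k < i), j < k → c k * row φ b k j = c j := H
  rw [dif_pos H'] at e
  exact ⟨H'.choose, H'.choose_spec, fun j => by rw [e]⟩

/-- The construction. -/
theorem exists_rows (hE : HasCocones E ι) (φ : E → E) (b : ι) :
    ∃ r : ι → ι → E, (∀ i j k, k < j → j < i → r i j * r j k = r i k) ∧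
      ∀ i, ∃ c : ι → E, (∀ j k, k < i → j < k → c k * r k j = c j) ∧
        ∀ j, r i j = φ (c b) * c j := by
  have key : ∀ i, (∃ c : ι → E, ∀ (j k : ι), k < i → j < k → c k * row φ b k j = c j) ∧
      ∀ j k, k < j → j < i → row φ b i j * row φ b j k = row φ b i k := by
    intro i
    induction i using WellFoundedLT.induction with
    | ind i ih =>
      have h1 : ∃ c : ι → E, ∀ (j k : ι), k < i → j < k → c k * row φ b k j = c j := by
        obtain ⟨c, hc⟩ := hE (Set.Iio i) (fun j k => row φ b k j) (by
          intro j hj k hk l hl h1 h2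
          exact (ih l hl).2 k j h1 h2)
        exact ⟨c, fun j k hk hj => hc j (hj.trans hk) k hk hj⟩
      refine ⟨h1, fun j k hk hj => ?_⟩
      obtain ⟨c, hc, hr⟩ := row_eq φ b i h1
      rw [hr, hr, mul_assoc, hc k j hj hk]
  exact ⟨row φ b, fun i j k hk hj => (key i).2 j k hk hj, fun i => row_eq φ b i (key i).1⟩

end Pool.Agent.R769.FC
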