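import Pool.Agent.R769.FC.Precover
import Pool.Agent.R769.FC.Trans

/-! From precovers to covers. -/

set_option autoImplicit false
set_option linter.unusedVariables false

universe u v w

open scoped RightActions

namespace Pool.Agent.R769.FC

variable (S : Type u) [Monoid S] (A : Type u) [MulAction Sᵐᵒᵖ A]

/-- A flat precover of `A`. -/
structure WT : Type (u + 1) where
  /-- carrier -/
  C : Type u
  /-- action -/
  act : MulAction Sᵐᵒᵖ C
  /-- structure map -/
  toA : C →[Sᵐᵒᵖ] A
  flat : IsFlat S C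
  wt : ∀ (F : Type u) [MulAction Sᵐᵒᵖ F], IsFlat S F → ∀ h : F →[Sᵐᵒᵖ] A,
    ∃ f : F →[Sᵐᵒᵖ] C, ∀ x, toA (f x) = h x

attribute [instance] WT.act

variable {S A}

/-- Endomorphisms over `A`. -/
@[ext] structure EndA (W : WT S A) : Type u where
  /-- the morphism -/
  hom : W.C →[Sᵐᵒᵖ] W.C
  ov : ∀ x, W.toA (hom x) = W.toA x

instance (W : WT S A) : Monoid (EndA W) where
  mul f g := ⟨f.hom.comp g.hom, fun x => (f.ov _).trans (g.ov x)⟩
  one := ⟨MulActionHom.id _, fun x => rfl⟩
  mul_assoc f g h := rfl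
  one_mul f := rfl
  mul_one f := rfl

theorem mul_hom {W : WT S A} (f g : EndA W) (x : W.C) : (f * g).hom x = f.hom (g.hom x) := rfl

theorem one_hom {W : WT S A} (x : W.C) : (1 : EndA W).hom x = x := rfl

theorem hasCocones (W : WT S A) (ι : Type u) [LinearOrder ι] : HasCocones (EndA W) ι := by
  classical
  intro I h hh
  let mor : I → I → EndA W := fun i j => if i < j then h i j else 1
  have mor_self : ∀ i, mor i i = 1 := fun i => if_neg (lt_irrefl i)
  have mor_comp : ∀ i j k, i ≤ j → j ≤ k → mor j k * mor i j = mor i k := by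
    intro i j k hij hjk
    rcases hij.eq_or_lt with rfl | hij
    · rw [mor_self, mul_one]
    rcases hjk.eq_or_lt with rfl | hjk
    · rw [mor_self, one_mul]
    · have e1 : mor i j = h i j := if_pos hij
      have e2 : mor j k = h j k := if_pos hjk
      have e3 : mor i k = h i k := if_pos (hij.trans hjk)
      rw [e1, e2, e3]
      exact hh i i.2 j j.2 k k.2 hij hjk
  let D : Sys S I (fun _ => W.C) :=
    { M := fun i j => {f | i ≤ j ∧ f = (mor i j).hom}
      id_mem := fun i => ⟨le_rfl, by rw [mor_self]; rfl⟩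
      comp_mem := by
        rintro i j k f ⟨h1, rfl⟩ g ⟨h2, rfl⟩
        exact ⟨h1.trans h2, by rw [← mor_comp i j k h1 h2]; rfl⟩
      amalg := by
        rintro i j k f ⟨h1, rfl⟩ g ⟨h2, rfl⟩
        refine ⟨max j k, _, ⟨le_max_left _ _, rfl⟩, _, ⟨le_max_right _ _, rfl⟩, fun x => ?_⟩
        rw [← mul_hom, ← mul_hom, mor_comp _ _ _ h1 (le_max_left _ _),
          mor_comp _ _ _ h2 (le_max_right _ _)] }
  let π : D.Colim →[Sᵐᵒᵖ] A := D.desc (fun _ => W.toA) (by
    rintro i j f ⟨h1, rfl⟩ x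
    exact (mor i j).ov x)
  obtain ⟨f, hf⟩ := W.wt D.Colim (D.flat fun _ => W.flat) π
  refine ⟨fun i => if hi : i ∈ I then ⟨f.comp (D.ι ⟨i, hi⟩), fun x => hf _⟩ else 1,
    fun i hi j hj hij => ?_⟩
  simp only [dif_pos hi, dif_pos hj]
  have e : h i j = mor ⟨i, hi⟩ ⟨j, hj⟩ := (if_pos (show (⟨i, hi⟩ : I) < ⟨j, hj⟩ from hij)).symm
  ext x
  change f (D.cls ⟨j, hj⟩ ((h i j).hom x)) = f (D.cls ⟨i, hi⟩ x)
  rw [e]
  exact congrArg f (D.cls_map _ ⟨le_of_lt hij, rfl⟩ x)

/-- A large well-ordered type. -/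
theorem exists_big (α : Type u) : ∃ (K : Type u) (_ : LinearOrder K), WellFoundedLT K ∧
    Nonempty K ∧ ∀ f : K → α, ¬ Function.Injective f := by
  obtain ⟨inst, hwf⟩ := exists_wellFoundedLT (Set α)
  exact ⟨Set α, inst, hwf, ⟨∅⟩, Function.cantor_injective⟩

/-- A minimal left ideal. -/
theorem exists_min (E : Type u) [Monoid E]
    (hE : ∀ (ι : Type u) [LinearOrder ι] [WellFoundedLT ι], HasCocones E ι) :
    ∃ g : E, ∀ h : E, ∃ h' : E, h' * h * g = g := by
  classical
  by_contra hcon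
  push Not at hcon
  choose φ hφ using hcon
  obtain ⟨K, inst, hwf, hne, hK⟩ := exists_big (Option E)
  let b : K := wellFounded_lt.min Set.univ Set.univ_nonempty
  have hb : ∀ i, i ≠ b → b < i := by
    intro i hi
    exact lt_of_le_of_ne (wellFounded_lt.min_le (Set.mem_univ i)) hi.symm
  obtain ⟨r, hr, hc⟩ := exists_rows (hE K) φ b
  have key : ∀ i j, i ≠ b → i < j → r i b ≠ r j b := by
    intro i j hi hij e
    obtain ⟨c, hc1, hc2⟩ := hc j
    have h1 := hc1 b i hij (hb i hi)
    have h2 := hc2 b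
    refine hφ (c b) (c i) ?_
    rw [mul_assoc, ← h2, ← e, h1]
  refine hK (fun i : K => if i = b then none else some (r i b)) ?_
  intro i j hij
  by_cases hi : i = b <;> by_cases hj : j = b
  · rw [hi, hj]
  · simp [hi, hj] at hij
  · simp [hi, hj] at hij
  · simp only [hi, hj, if_false, Option.some.injEq] at hij
    rcases lt_trichotomy i j with h | h | h
    · exact absurd hij (key i j hi h)
    · exact h
    · exact absurd hij.symm (key j i hj h)

/-- If all the endomorphisms over `A` are injective, they are surjective. -/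
theorem surj_of_inj (W : WT S A) (hW : ∀ f : EndA W, Function.Injective f.hom) (f : EndA W) :
    Function.Surjective f.hom := by
  classical
  by_contra hcon
  rw [Function.Surjective] at hcon
  push Not at hcon
  obtain ⟨y, hy⟩ := hcon
  obtain ⟨K, inst, hwf, ⟨b⟩, hK⟩ := exists_big W.C
  obtain ⟨r, hr, hc⟩ := exists_rows (hasCocones W K) (fun _ => f) b
  obtain ⟨c, hc1⟩ := hasCocones W K Set.univ (fun i j => r j i)
    (fun i _ j _ k _ hij hjk => hr k j i hij hjk)
  have key : ∀ i j, i < j → (c i).hom y ≠ (c j).hom y := by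
    intro i j hij e
    have h1 := hc1 i (Set.mem_univ _) j (Set.mem_univ _) hij
    rw [← h1, mul_hom] at e
    have h2 := hW (c j) e
    obtain ⟨c', _, h3⟩ := hc j
    rw [h3 i, mul_hom] at h2
    exact hy _ h2
  refine hK (fun i : K => (c i).hom y) ?_
  intro i j hij
  rcases lt_trichotomy i j with h | h | h
  · exact absurd hij (key i j h)
  · exact h
  · exact absurd hij.symm (key j i h)

/-- There is a precover all whose endomorphisms are injective. -/
theorem exists_inj (W : WT S A) : ∃ X : WT S A, ∀ f : EndA X, Function.Injective f.hom := by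
  obtain ⟨g, hg⟩ := exists_min (EndA W) (fun ι _ _ => hasCocones W ι)
  let D : Sys S ℕ (fun _ => W.C) :=
    { M := fun i j => {f | i ≤ j ∧ f = (g ^ (j - i)).hom}
      id_mem := fun i => ⟨le_rfl, by rw [Nat.sub_self, pow_zero]; rfl⟩
      comp_mem := by
        rintro i j k f ⟨h1, rfl⟩ g' ⟨h2, rfl⟩
        refine ⟨h1.trans h2, ?_⟩
        rw [show k - i = (k - j) + (j - i) by omega, pow_add]
        rfl
      amalg := by
        rintro i j k f ⟨h1, rfl⟩ g' ⟨h2, rfl⟩
        refine ⟨max j k, _, ⟨le_max_left _ _, rfl⟩, _, ⟨le_max_right _ _, rfl⟩, fun x => ?_⟩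
        rw [← mul_hom, ← mul_hom, ← pow_add, ← pow_add]
        congr 3
        omega }
  let π : D.Colim →[Sᵐᵒᵖ] A := D.desc (fun _ => W.toA) (by
    rintro i j f ⟨h1, rfl⟩ x
    exact (g ^ (j - i)).ov x)
  have hshift : ∀ (n : ℕ) (x : W.C), D.cls (n + 1) (g.hom x) = D.cls n x := by
    intro n x
    have := D.cls_map (j := n) (k := n + 1) (g ^ (n + 1 - n)).hom ⟨by omega, rfl⟩ x
    rwa [show n + 1 - n = 1 by omega, pow_one] at this
  have hcommon : ∀ a b : D.Colim, ∃ (n : ℕ) (x y : W.C), a = D.cls n x ∧ b = D.cls n y := by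
    intro a b
    obtain ⟨i, x, rfl⟩ := D.exists_cls a
    obtain ⟨j, y, rfl⟩ := D.exists_cls b
    refine ⟨max i j, (g ^ (max i j - i)).hom x, (g ^ (max i j - j)).hom y, ?_, ?_⟩
    · exact (D.cls_map _ ⟨le_max_left _ _, rfl⟩ x).symm
    · exact (D.cls_map _ ⟨le_max_right _ _, rfl⟩ y).symm
  let X : WT S A :=
    { C := D.Colim
      act := inferInstance
      toA := π
      flat := D.flat fun _ => W.flat
      wt := by
        intro F _ hF h
        obtain ⟨f, hf⟩ := W.wt F hF h
        exact ⟨(D.ι 0).comp f, hf⟩ }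
  refine ⟨X, fun f => ?_⟩
  intro a b hab
  obtain ⟨n, x, y, rfl, rfl⟩ := hcommon a b
  obtain ⟨r, hr⟩ := W.wt D.Colim X.flat π
  let h : EndA W := ⟨r.comp (f.hom.comp (D.ι (n + 1))), fun z => (hr _).trans (f.ov _)⟩
  obtain ⟨h', hh'⟩ := hg h
  have e1 : ∀ z, h.hom (g.hom z) = r (f.hom (D.cls n z)) := by
    intro z
    change r (f.hom (D.cls (n + 1) (g.hom z))) = _
    rw [hshift]
  have e2 : g.hom x = g.hom y := by
    rw [← hh', mul_hom, mul_hom, mul_hom, mul_hom, e1, e1]
    exact congrArg h'.hom (congrArg r hab)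
  rw [← hshift, ← hshift n y, e2]

end Pool.Agent.R769.FC
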