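import Pool.Agent.R769.FC.Basic

/-! Colimits of flat acts over systems with the amalgamation property. -/

set_option autoImplicit false
set_option linter.unusedVariables false

universe u v w

open scoped RightActions

namespace Pool.Agent.R769.FC

variable {S : Type u} [Monoid S]

/-- A system of right acts and morphisms with amalgamation. -/
structure Sys (S : Type u) [Monoid S] (J : Type w) (P : J → Type v)
    [∀ j, MulAction Sᵐᵒᵖ (P j)] where
  /-- the morphisms of the system -/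
  M : ∀ j k : J, Set (P j →[Sᵐᵒᵖ] P k)
  id_mem : ∀ j, MulActionHom.id Sᵐᵒᵖ ∈ M j j
  comp_mem : ∀ j k l, ∀ f ∈ M j k, ∀ g ∈ M k l, MulActionHom.comp g f ∈ M j l
  amalg : ∀ j k l, ∀ f ∈ M j k, ∀ g ∈ M j l, ∃ m, ∃ a ∈ M k m, ∃ b ∈ M l m,
    ∀ x, a (f x) = b (g x)

namespace Sys

variable {J : Type w} {P : J → Type v} [∀ j, MulAction Sᵐᵒᵖ (P j)] (D : Sys S J P)

/-- Two elements are identified in the colimit. -/
def rel (a b : Σ j, P j) : Prop :=
  ∃ l, ∃ f ∈ D.M a.1 l, ∃ g ∈ D.M b.1 l, f a.2 = g b.2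

/-- the equivalence relation -/
def setoid : Setoid (Σ j, P j) where
  r := D.rel
  iseqv :=
    { refl := fun a => ⟨a.1, _, D.id_mem _, _, D.id_mem _, rfl⟩
      symm := by
        rintro a b ⟨l, f, hf, g, hg, h⟩
        exact ⟨l, g, hg, f, hf, h.symm⟩
      trans := by
        rintro a b c ⟨l, f, hf, g, hg, h⟩ ⟨l', f', hf', g', hg', h'⟩
        obtain ⟨m, p, hp, q, hq, e⟩ := D.amalg _ _ _ g hg f' hf'
        refine ⟨m, _, D.comp_mem _ _ _ f hf p hp, _, D.comp_mem _ _ _ g' hg' q hq, ?_⟩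
        rw [MulActionHom.comp_apply, MulActionHom.comp_apply, h, e, h'] }

/-- the colimit -/
def Colim : Type (max w v) := Quotient D.setoid

/-- the canonical maps -/
def cls (j : J) (x : P j) : D.Colim := Quotient.mk D.setoid ⟨j, x⟩

theorem cls_eq {j k : J} {x : P j} {y : P k} :
    D.cls j x = D.cls k y ↔ ∃ l, ∃ f ∈ D.M j l, ∃ g ∈ D.M k l, f x = g y :=
  Quotient.eq (r := D.setoid)

theorem cls_map {j k : J} (f : P j →[Sᵐᵒᵖ] P k) (hf : f ∈ D.M j k) (x : P j) :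
    D.cls k (f x) = D.cls j x :=
  D.cls_eq.2 ⟨k, _, D.id_mem _, f, hf, rfl⟩

theorem exists_cls (a : D.Colim) : ∃ j x, a = D.cls j x := by
  obtain ⟨⟨j, x⟩, rfl⟩ := Quotient.exists_rep a
  exact ⟨j, x, rfl⟩

/-- the action -/
def smulAux (s : Sᵐᵒᵖ) : D.Colim → D.Colim :=
  Quotient.lift (s := D.setoid) (fun a => D.cls a.1 (s • a.2)) (by
    rintro ⟨j, x⟩ ⟨k, y⟩ ⟨l, f, hf, g, hg, h⟩
    refine D.cls_eq.2 ⟨l, f, hf, g, hg, ?_⟩
    rw [map_smul, map_smul]
    exact congrArg (s • ·) h)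

instance : MulAction Sᵐᵒᵖ D.Colim where
  smul s := D.smulAux s
  one_smul a := by
    obtain ⟨j, x, rfl⟩ := D.exists_cls a
    change D.cls j ((1 : Sᵐᵒᵖ) • x) = _
    rw [one_smul]
  mul_smul s t a := by
    obtain ⟨j, x, rfl⟩ := D.exists_cls a
    change D.cls j ((s * t) • x) = D.cls j (s • t • x)
    rw [mul_smul]

theorem smul_cls (s : Sᵐᵒᵖ) (j : J) (x : P j) : s • D.cls j x = D.cls j (s • x) := rfl

/-- the canonical maps are morphisms -/
def ι (j : J) : P j →[Sᵐᵒᵖ] D.Colim where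
  toFun := D.cls j
  map_smul' := fun s x => rfl

@[simp] theorem ι_apply (j : J) (x : P j) : D.ι j x = D.cls j x := rfl

/-- The universal property. -/
def desc {B : Type*} [MulAction Sᵐᵒᵖ B] (g : ∀ j, P j →[Sᵐᵒᵖ] B)
    (hg : ∀ j k, ∀ f ∈ D.M j k, ∀ x, g k (f x) = g j x) : D.Colim →[Sᵐᵒᵖ] B where
  toFun := Quotient.lift (s := D.setoid) (fun a => g a.1 a.2) (by
    rintro ⟨j, x⟩ ⟨k, y⟩ ⟨l, f, hf, f', hf', h⟩
    change g j x = g k y
    rw [← hg j l f hf, ← hg k l f' hf']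
    exact congrArg (g l) h)
  map_smul' := by
    intro s a
    obtain ⟨j, x, rfl⟩ := D.exists_cls a
    change g j (s • x) = s • g j x
    rw [map_smul]

@[simp] theorem desc_cls {B : Type*} [MulAction Sᵐᵒᵖ B] (g : ∀ j, P j →[Sᵐᵒᵖ] B)
    (hg : ∀ j k, ∀ f ∈ D.M j k, ∀ x, g k (f x) = g j x) (j : J) (x : P j) :
    D.desc g hg (D.cls j x) = g j x := rfl

/-- A tensor relation in the colimit comes from a member of the system. -/
theorem tensor_lift {Y : Type u} [MulAction S Y] {a b : D.Colim} {y z : Y}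
    (h : tmk (S := S) a y = tmk b z) :
    ∃ j, ∃ p q : P j, D.cls j p = a ∧ D.cls j q = b ∧ tmk (S := S) p y = tmk q z := by
  have h1 := Quot.eqvGen_exact h
  have key : ∀ c d : D.Colim × Y, Relation.EqvGen (fun p q : D.Colim × Y =>
      ∃ (a : D.Colim) (s : S) (x : Y), p = (a <• s, x) ∧ q = (a, s • x)) c d →
      ∃ j, ∃ p q : P j, D.cls j p = c.1 ∧ D.cls j q = d.1 ∧
        tmk (S := S) p c.2 = tmk q d.2 := by
    intro c d h
    induction h with
    | rel c d h =>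
      obtain ⟨a, s, x, rfl, rfl⟩ := h
      obtain ⟨j, p, rfl⟩ := D.exists_cls a
      exact ⟨j, p <• s, p, rfl, rfl, tmk_smul _ _ _⟩
    | refl c =>
      obtain ⟨j, p, hp⟩ := D.exists_cls c.1
      exact ⟨j, p, p, hp.symm, hp.symm, rfl⟩
    | symm c d _ ih =>
      obtain ⟨j, p, q, h1, h2, h3⟩ := ih
      exact ⟨j, q, p, h2, h1, h3.symm⟩
    | trans c d e _ _ ih1 ih2 =>
      obtain ⟨j, p, q, h1, h2, h3⟩ := ih1
      obtain ⟨k, p', q', h1', h2', h3'⟩ := ih2
      obtain ⟨m, f, hf, g, hg, e⟩ := D.cls_eq.1 (h2.trans h1'.symm)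
      refine ⟨m, f p, g q', (D.cls_map f hf p).trans h1, (D.cls_map g hg q').trans h2', ?_⟩
      rw [tmk_map f h3, e, tmk_map g h3']
  exact key _ _ h1

/-- The colimit of flat acts is flat. -/
theorem flat (h : ∀ j, IsFlat S (P j)) : IsFlat S D.Colim := by
  rw [flat_iff]
  intro X Y _ _ f hf a b x x' he
  obtain ⟨j, p, q, rfl, rfl, h3⟩ := D.tensor_lift he
  have h4 := (flat_iff (S := S) (P j)).1 (h j) X Y f hf _ _ _ _ h3
  exact tmk_map' (D.cls j) (fun s a => rfl) h4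

end Sys

end Pool.Agent.R769.FC
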