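import Pool.Agent.R769.FC.Basic

/-! Push-outs of pure morphisms. -/

set_option autoImplicit false
set_option linter.unusedVariables false

universe u v w

open scoped RightActions

namespace Pool.Agent.R769.FC

/-! ### Push-outs of injections of sets -/

section sets

variable {R P Q : Type v} (f : R → P) (g : R → Q)

/-- the relation -/
def PORel : P ⊕ Q → P ⊕ Q → Prop
  | Sum.inl p, Sum.inl p' => p = p'
  | Sum.inl p, Sum.inr q => ∃ r, f r = p ∧ g r = q
  | Sum.inr q, Sum.inl p => ∃ r, f r = p ∧ g r = q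
  | Sum.inr q, Sum.inr q' => q = q'

/-- the equivalence relation -/
def poSetoid (hf : Function.Injective f) (hg : Function.Injective g) : Setoid (P ⊕ Q) where
  r := PORel f g
  iseqv :=
    { refl := by rintro (p | q) <;> exact rfl
      symm := by
        rintro (p | q) (p' | q') h
        · exact Eq.symm h
        · exact h
        · exact h
        · exact Eq.symm h
      trans := by
        rintro (p | q) (p' | q') (p'' | q'') h h'
        · exact Eq.trans h h'
        · have h : p = p' := h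
          subst h; exact h'
        · obtain ⟨r, h1, h2⟩ := h
          obtain ⟨r', h3, h4⟩ := h'
          have : r = r' := hg (h2.trans h4.symm)
          subst this
          exact h1.symm.trans h3
        · have h' : q' = q'' := h'
          subst h'; exact h
        · have h' : p' = p'' := h'
          subst h'; exact h
        · obtain ⟨r, h1, h2⟩ := h
          obtain ⟨r', h3, h4⟩ := h'
          have : r = r' := hf (h1.trans h3.symm)
          subst this
          exact h2.symm.trans h4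
        · have h : q = q' := h
          subst h; exact h'
        · exact Eq.trans h h' }

/-- the push-out of two injections -/
def PO (hf : Function.Injective f) (hg : Function.Injective g) : Type v :=
  Quotient (poSetoid f g hf hg)

variable {f g} {hf : Function.Injective f} {hg : Function.Injective g}

/-- left inclusion -/
def PO.inl (p : P) : PO f g hf hg := Quotient.mk (poSetoid f g hf hg) (Sum.inl p)

/-- right inclusion -/
def PO.inr (q : Q) : PO f g hf hg := Quotient.mk (poSetoid f g hf hg) (Sum.inr q)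

theorem PO.inl_inl {p p' : P} : (PO.inl p : PO f g hf hg) = PO.inl p' ↔ p = p' :=
  Quotient.eq (r := poSetoid f g hf hg)

theorem PO.inr_inr {p p' : Q} : (PO.inr p : PO f g hf hg) = PO.inr p' ↔ p = p' :=
  Quotient.eq (r := poSetoid f g hf hg)

theorem PO.inl_inr {p : P} {q : Q} :
    (PO.inl p : PO f g hf hg) = PO.inr q ↔ ∃ r, f r = p ∧ g r = q :=
  Quotient.eq (r := poSetoid f g hf hg)

theorem PO.glue (r : R) : (PO.inl (f r) : PO f g hf hg) = PO.inr (g r) :=
  PO.inl_inr.2 ⟨r, rfl, rfl⟩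

theorem PO.cases (w : PO f g hf hg) : (∃ p, w = PO.inl p) ∨ ∃ q, w = PO.inr q := by
  obtain ⟨p | q, rfl⟩ := Quotient.exists_rep w
  · exact Or.inl ⟨p, rfl⟩
  · exact Or.inr ⟨q, rfl⟩

/-- universal property -/
def PO.desc {B : Type*} (a : P → B) (b : Q → B) (h : ∀ r, a (f r) = b (g r)) :
    PO f g hf hg → B :=
  Quotient.lift (s := poSetoid f g hf hg) (Sum.elim a b) (by
    rintro (p | q) (p' | q') e
    · exact congrArg a e
    · obtain ⟨r, rfl, rfl⟩ := e
      exact h r
    · obtain ⟨r, rfl, rfl⟩ := e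
      exact (h r).symm
    · exact congrArg b e)

@[simp] theorem PO.desc_inl {B : Type*} (a : P → B) (b : Q → B) (h : ∀ r, a (f r) = b (g r))
    (p : P) : PO.desc (hf := hf) (hg := hg) a b h (PO.inl p) = a p := rfl

@[simp] theorem PO.desc_inr {B : Type*} (a : P → B) (b : Q → B) (h : ∀ r, a (f r) = b (g r))
    (p : Q) : PO.desc (hf := hf) (hg := hg) a b h (PO.inr p) = b p := rfl

end sets

/-! ### Push-outs of acts -/

variable {S : Type u} [Monoid S] {R P Q : Type u} [MulAction Sᵐᵒᵖ R] [MulAction Sᵐᵒᵖ P]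
  [MulAction Sᵐᵒᵖ Q] {f : R →[Sᵐᵒᵖ] P} {g : R →[Sᵐᵒᵖ] Q} {hf : Function.Injective f}
  {hg : Function.Injective g}

instance : MulAction Sᵐᵒᵖ (PO (f : R → P) (g : R → Q) hf hg) where
  smul s := PO.desc (fun p => PO.inl (s • p)) (fun q => PO.inr (s • q)) (by
    intro r
    rw [← map_smul, ← map_smul]
    exact PO.glue _)
  one_smul w := by
    obtain ⟨p, rfl⟩ | ⟨q, rfl⟩ := w.cases
    · change PO.inl ((1 : Sᵐᵒᵖ) • p) = PO.inl p
      rw [one_smul]
    · change PO.inr ((1 : Sᵐᵒᵖ) • q) = PO.inr q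
      rw [one_smul]
  mul_smul s t w := by
    obtain ⟨p, rfl⟩ | ⟨q, rfl⟩ := w.cases
    · change PO.inl ((s * t) • p) = PO.inl (s • t • p)
      rw [mul_smul]
    · change PO.inr ((s * t) • q) = PO.inr (s • t • q)
      rw [mul_smul]

/-- left inclusion -/
def poInl (f : R →[Sᵐᵒᵖ] P) (g : R →[Sᵐᵒᵖ] Q) (hf : Function.Injective f)
    (hg : Function.Injective g) : P →[Sᵐᵒᵖ] PO (f : R → P) (g : R → Q) hf hg where
  toFun := PO.inl
  map_smul' := fun s p => rfl

/-- right inclusion -/
def poInr (f : R →[Sᵐᵒᵖ] P) (g : R →[Sᵐᵒᵖ] Q) (hf : Function.Injective f)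
    (hg : Function.Injective g) : Q →[Sᵐᵒᵖ] PO (f : R → P) (g : R → Q) hf hg where
  toFun := PO.inr
  map_smul' := fun s p => rfl

/-- universal property -/
def poDesc {B : Type*} [MulAction Sᵐᵒᵖ B] (a : P →[Sᵐᵒᵖ] B) (b : Q →[Sᵐᵒᵖ] B)
    (h : ∀ r, a (f r) = b (g r)) : PO (f : R → P) (g : R → Q) hf hg →[Sᵐᵒᵖ] B where
  toFun := PO.desc a b h
  map_smul' := by
    intro s w
    obtain ⟨p, rfl⟩ | ⟨q, rfl⟩ := w.cases
    · exact map_smul a s p
    · exact map_smul b s q

/-- From the tensor product of the push-out to the push-out of the tensor products. -/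
def toPO (hf : Pure f) (hg : Pure g) (Y : Type u) [MulAction S Y] :
    Tensor S (PO (f : R → P) (g : R → Q) hf.inj hg.inj) Y →
      PO (Tensor.mapL (S := S) f Y) (Tensor.mapL g Y)
        (by rintro ⟨r, y⟩ ⟨r', y'⟩ h; exact hf.t1 Y r r' y y' h)
        (by rintro ⟨r, y⟩ ⟨r', y'⟩ h; exact hg.t1 Y r r' y y' h) :=
  Quot.lift (fun w => PO.desc (fun p => PO.inl (tmk (S := S) p w.2))
      (fun q => PO.inr (tmk (S := S) q w.2))
      (fun r => PO.glue (f := Tensor.mapL (S := S) f Y) (g := Tensor.mapL g Y)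
        (tmk (S := S) r w.2)) w.1) (by
    rintro p q ⟨w, s, y, rfl, rfl⟩
    obtain ⟨p, rfl⟩ | ⟨q, rfl⟩ := w.cases
    · change PO.inl (tmk (S := S) (p <• s) y) = PO.inl (tmk (S := S) p (s • y))
      rw [tmk_smul]
    · change PO.inr (tmk (S := S) (q <• s) y) = PO.inr (tmk (S := S) q (s • y))
      rw [tmk_smul])

section
variable (hf : Pure f) (hg : Pure g) {Y : Type u} [MulAction S Y]

theorem po_ll {p p' : P} {y y' : Y}
    (h : tmk (S := S) (PO.inl p : PO (f : R → P) (g : R → Q) hf.inj hg.inj) y =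
      tmk (PO.inl p') y') : tmk (S := S) p y = tmk p' y' :=
  PO.inl_inl.1 (congrArg (toPO hf hg Y) h)

theorem po_rr {p p' : Q} {y y' : Y}
    (h : tmk (S := S) (PO.inr p : PO (f : R → P) (g : R → Q) hf.inj hg.inj) y =
      tmk (PO.inr p') y') : tmk (S := S) p y = tmk p' y' :=
  PO.inr_inr.1 (congrArg (toPO hf hg Y) h)

theorem po_lr {p : P} {q : Q} {y y' : Y}
    (h : tmk (S := S) (PO.inl p : PO (f : R → P) (g : R → Q) hf.inj hg.inj) y =
      tmk (PO.inr q) y') : ∃ (r : R) (z : Y), tmk (S := S) (f r) z = tmk p y ∧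
        tmk (S := S) (g r) z = tmk q y' := by
  obtain ⟨t, h1, h2⟩ := PO.inl_inr.1 (congrArg (toPO hf hg Y) h)
  obtain ⟨⟨r, z⟩, rfl⟩ := Quot.exists_rep t
  exact ⟨r, z, h1, h2⟩

end

theorem po_flat (hf : Pure f) (hg : Pure g) (hP : IsFlat S P) (hQ : IsFlat S Q) :
    IsFlat S (PO (f : R → P) (g : R → Q) hf.inj hg.inj) := by
  have mixed : ∀ (X Y : Type u) [MulAction S X] [MulAction S Y] (k : X →[S] Y),
      Function.Injective k → ∀ (p : P) (q : Q) (x x' : X),
      tmk (S := S) (PO.inl p : PO (f : R → P) (g : R → Q) hf.inj hg.inj) (k x) =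
        tmk (PO.inr q) (k x') →
      tmk (S := S) (PO.inl p : PO (f : R → P) (g : R → Q) hf.inj hg.inj) x =
        tmk (PO.inr q) x' := by
    intro X Y _ _ k hk p q x x' h
    obtain ⟨r, z, h1, h2⟩ := po_lr hf hg h
    obtain ⟨r', h3, h4⟩ := hf.pull hP k hk h1
    have h5 : tmk (S := S) (g r') (k x) = tmk q (k x') := by
      rw [← h2]
      exact (tmk_map g h3).symm
    have h6 := (flat_iff (S := S) Q).1 hQ X Y k hk _ _ _ _ h5
    have e1 := tmk_map (poInl f g hf.inj hg.inj) h4
    have e2 := tmk_map (poInr f g hf.inj hg.inj) h6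
    have e3 : poInl f g hf.inj hg.inj (f r') = poInr f g hf.inj hg.inj (g r') := PO.glue r'
    exact e1.symm.trans (by rw [e3]; exact e2)
  rw [flat_iff]
  intro X Y _ _ k hk a b x x' h
  obtain ⟨p, rfl⟩ | ⟨q, rfl⟩ := a.cases
  · obtain ⟨p', rfl⟩ | ⟨q', rfl⟩ := b.cases
    · exact tmk_map (poInl f g hf.inj hg.inj)
        ((flat_iff (S := S) P).1 hP X Y k hk _ _ _ _ (po_ll hf hg h))
    · exact mixed X Y k hk p q' x x' h
  · obtain ⟨p', rfl⟩ | ⟨q', rfl⟩ := b.cases
    · exact (mixed X Y k hk p' q x' x h.symm).symm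
    · exact tmk_map (poInr f g hf.inj hg.inj)
        ((flat_iff (S := S) Q).1 hQ X Y k hk _ _ _ _ (po_rr hf hg h))

theorem po_pure_inl (hf : Pure f) (hg : Pure g) : Pure (poInl f g hf.inj hg.inj) where
  t1 := fun Y _ p p' y y' h => po_ll hf hg h
  t2 := fun Y _ p w y y' h => by
    obtain ⟨p', rfl⟩ | ⟨q', rfl⟩ := w.cases
    · exact ⟨p', po_ll hf hg h⟩
    · obtain ⟨r, z, h1, h2⟩ := po_lr hf hg h
      obtain ⟨r', h3⟩ := hg.t2 Y _ _ _ _ h2
      exact ⟨f r', h1.symm.trans (tmk_map f h3)⟩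

theorem po_pure_inr (hf : Pure f) (hg : Pure g) : Pure (poInr f g hf.inj hg.inj) where
  t1 := fun Y _ p p' y y' h => po_rr hf hg h
  t2 := fun Y _ q w y y' h => by
    obtain ⟨p', rfl⟩ | ⟨q', rfl⟩ := w.cases
    · obtain ⟨r, z, h1, h2⟩ := po_lr hf hg h.symm
      obtain ⟨r', h3⟩ := hf.t2 Y _ _ _ _ h1
      exact ⟨g r', h2.symm.trans (tmk_map g h3)⟩
    · exact ⟨q', po_rr hf hg h⟩

end Pool.Agent.R769.FC
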