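import Pool.Agent.R769.FC.Ore
import Pool.Agent.R769.FC.Push

/-! Flat precovers: the colimit of all flat acts over `A` along the pure morphisms. -/

set_option autoImplicit false
set_option linter.unusedVariables false

universe u v w

open scoped RightActions

namespace Pool.Agent.R769.FC

variable (S : Type u) [Monoid S] (A : Type u) [MulAction Sᵐᵒᵖ A]

/-- Flat acts over `A`. -/
structure Obj : Type (u + 1) where
  /-- carrier -/
  C : Type u
  /-- action -/
  act : MulAction Sᵐᵒᵖ C
  /-- structure map -/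
  toA : C →[Sᵐᵒᵖ] A
  flat : IsFlat S C

attribute [instance] Obj.act

/-- The system of all flat acts over `A`. -/
def big : Sys S (Obj S A) (fun o => o.C) where
  M o o' := {f | Pure f ∧ ∀ x, o'.toA (f x) = o.toA x}
  id_mem o := ⟨Pure.id, fun x => rfl⟩
  comp_mem o o' o'' f hf g hg := ⟨hf.1.comp hg.1, fun x => by
    rw [MulActionHom.comp_apply, hg.2, hf.2]⟩
  amalg o p q f hf g hg := by
    have h : ∀ r, p.toA (f r) = q.toA (g r) := fun r => (hf.2 r).trans (hg.2 r).symm
    refine ⟨⟨PO (f : o.C → p.C) (g : o.C → q.C) hf.1.inj hg.1.inj, inferInstance,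
      poDesc p.toA q.toA h, po_flat hf.1 hg.1 p.flat q.flat⟩,
      poInl f g hf.1.inj hg.1.inj, ⟨po_pure_inl hf.1 hg.1, fun x => rfl⟩,
      poInr f g hf.1.inj hg.1.inj, ⟨po_pure_inr hf.1 hg.1, fun x => rfl⟩, fun x => ?_⟩
    exact PO.glue x

variable {S A}

/-! ### Small pure subacts -/

/-- Formal expressions for the elements of a closed subact generated by one element. -/
inductive Term (S : Type u) : Type u
  | x : Term S
  | act : Term S → S → Term S
  | w1 : S → S → List (S × S) → Term S → Term S → Term S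
  | w2 : S → S → List (S × S) → Term S → Term S

variable {F : Type u} [MulAction Sᵐᵒᵖ F]

open Classical in
/-- evaluation -/
noncomputable def ev (x : F) : Term S → F
  | Term.x => x
  | Term.act a s => ev x a <• s
  | Term.w1 s t σ a b =>
      if h : ∃ z : F, z <• s = ev x a ∧ APath σ (z <• t) (ev x b) then h.choose else x
  | Term.w2 s t σ a =>
      if h : ∃ z : F, z <• s = ev x a ∧ ∃ q, APath σ (z <• t) q then h.choose else x

/-- A morphism whose image is closed under solutions of tossings is pure. -/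
theorem pure_of_closed {R P : Type u} [MulAction Sᵐᵒᵖ R] [MulAction Sᵐᵒᵖ P] (f : R →[Sᵐᵒᵖ] P)
    (hf : Function.Injective f)
    (h1 : ∀ (s t : S) (σ : List (S × S)) (a b : R),
      (∃ z : P, z <• s = f a ∧ APath σ (z <• t) (f b)) →
      ∃ z : R, f z <• s = f a ∧ APath σ (f z <• t) (f b))
    (h2 : ∀ (s t : S) (σ : List (S × S)) (a : R),
      (∃ z : P, z <• s = f a ∧ ∃ q, APath σ (z <• t) q) →
      ∃ z : R, f z <• s = f a ∧ ∃ q, APath σ (f z <• t) q) : Pure f := by
  have k1 : ∀ (σ : List (S × S)) (a b : R), APath σ (f a) (f b) → APath σ a b := by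
    intro σ
    induction σ with
    | nil => exact fun a b h => hf h
    | cons p σ ih =>
      obtain ⟨s, t⟩ := p
      intro a b h
      obtain ⟨z, hz, h⟩ := h1 s t σ a b h
      refine ⟨z, hf (by rw [map_smul]; exact hz), ih _ _ ?_⟩
      rw [map_smul]
      exact h
  have k2 : ∀ (σ : List (S × S)) (a : R), (∃ q, APath σ (f a) q) → ∃ q, APath σ a q := by
    intro σ
    induction σ with
    | nil => exact fun a _ => ⟨a, rfl⟩
    | cons p σ ih =>
      obtain ⟨s, t⟩ := p
      rintro a ⟨q, z, hz, h⟩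
      obtain ⟨z, hz, h⟩ := h2 s t σ a ⟨z, hz, q, h⟩
      obtain ⟨q, hq⟩ := ih (z <• t) (by rw [map_smul]; exact h)
      exact ⟨q, z, hf (by rw [map_smul]; exact hz), hq⟩
  refine ⟨fun Y _ r r' y y' h => ?_, fun Y _ r p y y' h => ?_⟩
  · obtain ⟨σ, h3, h4⟩ := toss_of_eq h
    exact eq_of_toss σ _ _ _ _ (k1 σ _ _ h3) h4
  · obtain ⟨σ, h3, h4⟩ := toss_of_eq h
    obtain ⟨q, hq⟩ := k2 σ r ⟨_, h3⟩
    exact ⟨q, eq_of_toss σ _ _ _ _ hq h4⟩

/-- The kernel of the evaluation. -/
noncomputable def kerEv (x : F) : Setoid (Term S) := Setoid.ker (ev x)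

/-- The injection of the quotient. -/
noncomputable def evQ (x : F) : Quotient (kerEv (S := S) x) → F :=
  Quotient.lift (ev x) (fun _ _ h => h)

theorem evQ_inj (x : F) : Function.Injective (evQ (S := S) x) := by
  intro a b
  obtain ⟨a, rfl⟩ := Quotient.exists_rep a
  obtain ⟨b, rfl⟩ := Quotient.exists_rep b
  intro h
  exact Quotient.sound h

/-- The action on the quotient. -/
noncomputable instance evSMul (x : F) : SMul Sᵐᵒᵖ (Quotient (kerEv (S := S) x)) where
  smul s := Quotient.map' (fun a => Term.act a s.unop) (by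
    intro a b h
    have h : ev x a = ev x b := h
    change ev x (Term.act a s.unop) = ev x (Term.act b s.unop)
    simp only [ev, h])

theorem evQ_smul (x : F) (s : Sᵐᵒᵖ) (a : Quotient (kerEv (S := S) x)) :
    evQ x (s • a) = s • evQ x a := by
  obtain ⟨a, rfl⟩ := Quotient.exists_rep a
  rfl

noncomputable instance evAct (x : F) : MulAction Sᵐᵒᵖ (Quotient (kerEv (S := S) x)) :=
  Function.Injective.mulAction (evQ x) (evQ_inj x) (evQ_smul x)

/-- The morphism. -/
noncomputable def evHom (x : F) : Quotient (kerEv (S := S) x) →[Sᵐᵒᵖ] F where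
  toFun := evQ x
  map_smul' := evQ_smul x

theorem evHom_pure (x : F) : Pure (evHom (S := S) x) := by
  refine pure_of_closed _ (evQ_inj x) ?_ ?_
  · intro s t σ a b h
    obtain ⟨a, rfl⟩ := Quotient.exists_rep a
    obtain ⟨b, rfl⟩ := Quotient.exists_rep b
    have h' : ∃ z : F, z <• s = ev x a ∧ APath σ (z <• t) (ev x b) := h
    refine ⟨Quotient.mk _ (Term.w1 s t σ a b), ?_⟩
    have e : (evHom (S := S) x) (Quotient.mk _ (Term.w1 s t σ a b)) = h'.choose := by
      change ev x (Term.w1 s t σ a b) = _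
      rw [ev, dif_pos h']
    rw [e]
    exact h'.choose_spec
  · intro s t σ a h
    obtain ⟨a, rfl⟩ := Quotient.exists_rep a
    have h' : ∃ z : F, z <• s = ev x a ∧ ∃ q, APath σ (z <• t) q := h
    refine ⟨Quotient.mk _ (Term.w2 s t σ a), ?_⟩
    have e : (evHom (S := S) x) (Quotient.mk _ (Term.w2 s t σ a)) = h'.choose := by
      change ev x (Term.w2 s t σ a) = _
      rw [ev, dif_pos h']
    rw [e]
    exact h'.choose_spec

variable (S A)

/-- A small set of representatives. -/
structure SmallObj : Type u where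
  /-- equivalence relation -/
  r : Setoid (Term S)
  /-- action -/
  act : MulAction Sᵐᵒᵖ (Quotient r)
  /-- structure map -/
  toA : Quotient r →[Sᵐᵒᵖ] A
  flat : IsFlat S (Quotient r)

variable {S A}

/-- forget smallness -/
def SmallObj.toObj (o : SmallObj S A) : Obj S A :=
  ⟨Quotient o.r, o.act, o.toA, o.flat⟩

theorem small_surj : Function.Surjective
    (fun a : Σ o : SmallObj S A, Quotient o.r => (big S A).cls a.1.toObj a.2) := by
  intro c
  obtain ⟨o, x, rfl⟩ := (big S A).exists_cls c
  refine ⟨⟨⟨kerEv (S := S) x, evAct x, o.toA.comp (evHom x), (evHom_pure x).flat o.flat⟩,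
    Quotient.mk _ Term.x⟩, ?_⟩
  refine (big S A).cls_eq.2 ⟨o, evHom x, ⟨evHom_pure x, fun y => rfl⟩,
    MulActionHom.id Sᵐᵒᵖ, ⟨Pure.id, fun y => rfl⟩, rfl⟩

instance : Small.{u} (big S A).Colim := small_of_surjective small_surj

/-- The structure map of the big colimit. -/
def bigToA : (big S A).Colim →[Sᵐᵒᵖ] A :=
  (big S A).desc (fun o => o.toA) (fun o o' f hf x => hf.2 x)

variable (S A)

/-- The precover. -/
def Om : Type u := Shrink.{u} (big S A).Colim

variable {S A}

/-- the identification -/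
noncomputable def omEquiv : Om S A ≃ (big S A).Colim := (equivShrink _).symm

noncomputable instance : MulAction Sᵐᵒᵖ (Om S A) where
  smul s x := omEquiv.symm (s • omEquiv x)
  one_smul x := by
    change omEquiv.symm ((1 : Sᵐᵒᵖ) • omEquiv x) = x
    rw [one_smul, Equiv.symm_apply_apply]
  mul_smul s t x := by
    change omEquiv.symm ((s * t) • omEquiv x) = omEquiv.symm (s • omEquiv (omEquiv.symm _))
    rw [mul_smul, Equiv.apply_symm_apply]

theorem om_smul (s : Sᵐᵒᵖ) (x : Om S A) : omEquiv (s • x) = s • omEquiv x :=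
  omEquiv.apply_symm_apply _

theorem om_symm_smul (s : Sᵐᵒᵖ) (x : (big S A).Colim) :
    omEquiv.symm (s • x) = s • omEquiv.symm x := by
  apply omEquiv.injective
  rw [om_smul, Equiv.apply_symm_apply, Equiv.apply_symm_apply]

theorem om_flat : IsFlat S (Om S A) :=
  flat_retract omEquiv (fun s b => om_smul _ b) omEquiv.symm (fun s b => om_symm_smul _ b)
    (fun b => omEquiv.symm_apply_apply b) ((big S A).flat fun o => o.flat)

/-- The structure map. -/
noncomputable def omToA : Om S A →[Sᵐᵒᵖ] A where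
  toFun x := bigToA (omEquiv x)
  map_smul' s x := by
    rw [om_smul, map_smul]
    rfl

/-- Every flat act over `A` maps to the precover. -/
theorem om_precover (F : Type u) [MulAction Sᵐᵒᵖ F] (hF : IsFlat S F) (h : F →[Sᵐᵒᵖ] A) :
    ∃ f : F →[Sᵐᵒᵖ] Om S A, ∀ x, omToA (f x) = h x := by
  let o : Obj S A := ⟨F, inferInstance, h, hF⟩
  refine ⟨⟨fun x => omEquiv.symm ((big S A).cls o x), fun s x => ?_⟩, fun x => ?_⟩
  · exact om_symm_smul s ((big S A).cls o x)
  · change bigToA (omEquiv (omEquiv.symm ((big S A).cls o x))) = h x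
    rw [Equiv.apply_symm_apply]
    rfl

end Pool.Agent.R769.FC
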